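import Pool.Agent.Lib_helper57.MinHomeo.Defs

/-!
# Module Stab: stability of the constraints
-/

open Set Metric Topology Filter

namespace Pool.Agent.MinHomeo

theorem stab_lim {M : Type} [MetricSpace M] {f : M → M} (hf : Continuous f) {g : ℕ → M → M}
    {θ : ℕ → ℝ} (hθ : Tendsto θ atTop (𝓝 0)) {F : Set M} (hF : IsClosed F)
    (h : ∀ n y, y ∉ F → dist (g n y) (f y) < θ n) {x : ℕ → M} {x0 : M}
    (hx : Tendsto x atTop (𝓝 x0)) (a : ℕ) (haF : ∀ j < a, f^[j] x0 ∉ F) :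
    Tendsto (fun n => (g n)^[a] (x n)) atTop (𝓝 (f^[a] x0)) := by
  induction a with
  | zero => simpa using hx
  | succ a ih =>
    have h1 := ih fun j hj => haF j (by omega)
    have h2 : ∀ᶠ n in atTop, (g n)^[a] (x n) ∉ F :=
      h1.eventually (hF.isOpen_compl.mem_nhds (haF a (by omega)))
    have h3 : Tendsto (fun n => f ((g n)^[a] (x n))) atTop (𝓝 (f (f^[a] x0))) :=
      (hf.tendsto _).comp h1
    have h4 : Tendsto (fun n => dist ((g n) ((g n)^[a] (x n))) (f ((g n)^[a] (x n)))) atTop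
        (𝓝 0) := by
      refine squeeze_zero' (Eventually.of_forall fun n => dist_nonneg) ?_ hθ
      filter_upwards [h2] with n hn
      exact (h n _ hn).le
    simp only [Function.iterate_succ_apply']
    have h5 := (tendsto_iff_dist_tendsto_zero).1 h3
    rw [tendsto_iff_dist_tendsto_zero]
    have h6 := h4.add h5
    rw [add_zero] at h6
    refine squeeze_zero (fun n => dist_nonneg) (fun n => ?_) h6
    exact dist_triangle _ _ _

theorem stab_ev {M : Type} [MetricSpace M] {f : M → M} (hf : Continuous f) {g : ℕ → M → M}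
    {θ : ℕ → ℝ} (hθ : Tendsto θ atTop (𝓝 0)) {F : Set M} (hF : IsClosed F)
    (h : ∀ n y, y ∉ F → dist (g n y) (f y) < θ n) {x : ℕ → M} {x0 : M}
    (hx : Tendsto x atTop (𝓝 x0)) {U : Set M} (hU : IsOpen U) (a : ℕ) (haU : f^[a] x0 ∈ U)
    (haF : ∀ j < a, f^[j] x0 ∉ F) :
    ∀ᶠ n in atTop, (g n)^[a] (x n) ∈ U ∧ ∀ j < a, (g n)^[j] (x n) ∉ F := by
  have h1 : ∀ᶠ n in atTop, (g n)^[a] (x n) ∈ U :=
    (stab_lim hf hθ hF h hx a haF).eventually (hU.mem_nhds haU)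
  have h2 : ∀ᶠ n in atTop, ∀ j ∈ Finset.range a, (g n)^[j] (x n) ∉ F := by
    rw [Finset.eventually_all]
    intro j hj
    have hj' := Finset.mem_range.1 hj
    exact (stab_lim hf hθ hF h hx j fun i hi => haF i (by omega)).eventually
      (hF.isOpen_compl.mem_nhds (haF j hj'))
  filter_upwards [h1, h2] with n hn1 hn2
  exact ⟨hn1, fun j hj => hn2 j (Finset.mem_range.2 hj)⟩

theorem stab : Stab_Stmt := by
  intro M _ f c hK hU hF hB hgood
  by_contra hcon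
  push Not at hcon
  have hpos : ∀ n : ℕ, (0 : ℝ) < 1 / ((n : ℝ) + 1) := fun n => Nat.one_div_pos_of_nat
  choose g hg1 hg2 hg3 using fun n : ℕ => hcon (1 / ((n : ℝ) + 1)) (hpos n)
  have hbad : ∀ n, ∃ x ∈ c.K, ¬ ((∃ a ≤ c.N, (⇑(g n))^[a] x ∈ c.U ∧
      ∀ j < a, (⇑(g n))^[j] x ∉ c.F) ∨
      (∃ a ≤ c.N, (⇑(g n).symm)^[a] x ∈ c.U ∧ ∀ j < a, (⇑(g n).symm)^[j] x ∉ c.B)) := by
    intro n
    have := hg3 n
    unfold Good at this
    push Not at this
    obtain ⟨x, hx, h1, h2⟩ := this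
    refine ⟨x, hx, ?_⟩
    push Not
    exact ⟨h1, h2⟩
  choose x hxK hx using hbad
  obtain ⟨x0, hx0, φ, hφ, hlim⟩ := hK.tendsto_subseq hxK
  have hθ : Tendsto (fun n : ℕ => 1 / (((φ n : ℕ) : ℝ) + 1)) atTop (𝓝 0) :=
    tendsto_one_div_add_atTop_nhds_zero_nat.comp hφ.tendsto_atTop
  rcases hgood x0 hx0 with ⟨a, haN, haU, haF⟩ | ⟨a, haN, haU, haB⟩
  · have := stab_ev (g := fun n => ⇑(g (φ n))) f.continuous hθ hF
      (fun n y hy => hg1 (φ n) y hy) (x := fun n => x (φ n)) hlim hU a haU haF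
    obtain ⟨n, hn1, hn2⟩ := this.exists
    exact hx (φ n) (Or.inl ⟨a, haN, hn1, hn2⟩)
  · have := stab_ev (g := fun n => ⇑(g (φ n)).symm) f.symm.continuous hθ hB
      (fun n y hy => hg2 (φ n) y hy) (x := fun n => x (φ n)) hlim hU a haU haB
    obtain ⟨n, hn1, hn2⟩ := this.exists
    exact hx (φ n) (Or.inr ⟨a, haN, hn1, hn2⟩)

end Pool.Agent.MinHomeo
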